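import Pool.Agent.W23.SG.All
import Pool.Agent.Y886.UTD

/-!
# Sums of an `a`-prime and an almost prime (copy of the file of helper234 in the results of MP_e3f158_nt)

Let `ε > 0`. For all large `X` and all `N` in `(X, 2 X]`, with at most `exp (5 √(log X) log log X)` exceptions, the
following holds for ALL `a` with `f₂ (a, 0) ≤ N`: a positive proportion (at least `c`) of all the `a`-primes `p ≤ X` is such
that `N - p = m s`, where all prime factors of `m` are `< X ^ ε` and `s` has at most two prime factors, which are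
`> X ^ (1 / 7)`. For a single `a`, the number of the exceptional `N` is at most `C (K log X) ^ a` (bounded, for `a = 0`),
uniformly for all `a` with `(a + 1) log log X ≤ η log X`.

Proof: the theorem on sparse sets of primes of the starting library (`Pool.Agent.W23.SG.sparse_sets`) and the lower bound,
uniform in `a`, of the number of the `a`-primes (`Pool.Agent.Y886.UT.dens_exp`).
-/

set_option autoImplicit false

open Finset Filter Topology

namespace Pool.Agent.Q331.E3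

/-- the `x`-th prime, for `x ≥ 1` -/
noncomputable def pr (x : ℕ) : ℕ := Nat.nth Nat.Prime (x - 1)

/-- the `x`-th `i`-prime, for `x ≥ 1`: the `(i + 1)`-fold iterate of `pr` -/
noncomputable def iPrime (i x : ℕ) : ℕ := pr^[i + 1] x

/-- the function `f₂` of the question -/
noncomputable def f₂ (a b : ℕ) : ℝ :=
  if a = b then
    (if a = 0 then (2 : ℝ) ^ (((a : ℝ) + 1) * (b + 1) * (a + b + 2))
      else (2 : ℝ) ^ (((a : ℝ) + 1) ^ 2 * (2 * a + 3) / a - 2 * a))
  else (2 : ℝ) ^ (((a : ℝ) + 1) * (b + 1) * (a + b + 2) - (a + b - 2))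

open Classical in
/-- the set of the `a`-primes up to `X` -/
noncomputable def aPrimes (a X : ℕ) : Finset ℕ :=
  (Icc 1 X).filter (fun p => ∃ u : ℕ, 1 ≤ u ∧ iPrime a u = p)

/-- `N = p + m s`, where all prime factors of `m` are `< X ^ ε` and `s` has at most two prime factors (counted with
multiplicity), all of them `> X ^ (1 / 7)` -/
def Represents (ε : ℝ) (X N p : ℕ) : Prop :=
  ∃ m s : ℕ, 0 < m ∧ 0 < s ∧ p + m * s = N ∧
    (∀ l : ℕ, l.Prime → l ∣ m → (l : ℝ) < (X : ℝ) ^ ε) ∧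
    s.primeFactorsList.length ≤ 2 ∧ ∀ q ∈ s.primeFactors, (X : ℝ) ^ (1 / 7 : ℝ) < q

open Classical in
/-- the number of the `a`-primes `p ≤ X` which are the first summand of a sum `N = p + m s` as above -/
noncomputable def reps (ε : ℝ) (a X N : ℕ) : ℕ := ((aPrimes a X).filter (Represents ε X N)).card

open Classical in
/-- the `N` in `(X, 2 X]` for which less than the proportion `c` of the `a`-primes up to `X` is counted by `reps` -/
noncomputable def exceptional (ε c : ℝ) (a X : ℕ) : Finset ℕ :=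
  (Ioc X (2 * X)).filter (fun N => (reps ε a X N : ℝ) < c * (aPrimes a X).card)

lemma prime_of_mem {a X p : ℕ} (h : p ∈ aPrimes a X) : p.Prime ∧ p ≤ X := by
  classical
  unfold aPrimes at h
  rw [mem_filter, mem_Icc] at h
  obtain ⟨⟨h1, h2⟩, u, hu, rfl⟩ := h
  refine ⟨?_, h2⟩
  unfold iPrime
  rw [Function.iterate_succ_apply']
  exact Nat.prime_nth_prime _

lemma sub_aPrimes {a X : ℕ} {S : Finset ℕ} (h1 : S ⊆ Icc 1 X) (h2 : ∀ p ∈ S, Pool.Agent.H197R2.PG.PI a p) :
    S ⊆ aPrimes a X := by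
  classical
  intro p hp
  unfold aPrimes
  rw [mem_filter]
  refine ⟨h1 hp, ?_⟩
  obtain ⟨u, hu, hu2⟩ := Pool.Agent.TH665.GP.exists_index (h2 p hp)
  exact ⟨u, hu, hu2⟩

/-- the number of the `a`-primes, from below -/
lemma lower (κ η₀ : ℝ) (hκ : 0 ≤ κ) (hη : 0 < η₀)
    (hd : ∀ (a y : ℕ) (l : ℝ), 2 ≤ y → 1 ≤ l → Real.log y ≤ Real.exp l → ∃ S : Finset ℕ,
      S ⊆ Icc 1 y ∧ (∀ p ∈ S, Pool.Agent.H197R2.PG.PI a p) ∧
      (y : ℝ) * Real.exp (-(((a : ℝ) + 1) * (l + κ))) ≤ (S.card : ℝ) + 1) :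
    ∀ᶠ X : ℕ in atTop, ∀ a : ℕ, ((a : ℝ) + 1) * Real.log (Real.log X) ≤ min η₀ 1 / 4 * Real.log X →
      (X : ℝ) ≤ 2 * (Real.exp κ * Real.log X) ^ (a + 1) * (aPrimes a X).card ∧
      (X : ℝ) ^ (1 - η₀) ≤ (aPrimes a X).card := by
  classical
  have tN : Tendsto (fun N : ℕ => (N : ℝ)) atTop atTop := tendsto_natCast_atTop_atTop
  have tL : Tendsto (fun N : ℕ => Real.log (N : ℝ)) atTop atTop := Real.tendsto_log_atTop.comp tN
  have tLL : Tendsto (fun N : ℕ => Real.log (Real.log (N : ℝ))) atTop atTop := Real.tendsto_log_atTop.comp tL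
  obtain ⟨η₁, hη₁⟩ : ∃ η₁, η₁ = min η₀ 1 := ⟨_, rfl⟩
  have hη10 : 0 < η₁ := by rw [hη₁]; exact lt_min hη one_pos
  have hη1a : η₁ ≤ η₀ := by rw [hη₁]; exact min_le_left _ _
  have hη1b : η₁ ≤ 1 := by rw [hη₁]; exact min_le_right _ _
  rw [← hη₁]
  have tp : Tendsto (fun N : ℕ => (N : ℝ) ^ (η₁ / 2)) atTop atTop :=
    (tendsto_rpow_atTop (by positivity)).comp tN
  filter_upwards [eventually_ge_atTop 2, tLL.eventually_ge_atTop (1 + κ), tp.eventually_ge_atTop 2]
    with X hX2 hl hp2 a ha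
  have hXr : (2 : ℝ) ≤ X := by exact_mod_cast hX2
  have hX0 : (0 : ℝ) < X := by linarith
  obtain ⟨L, hL⟩ : ∃ L, L = Real.log (X : ℝ) := ⟨_, rfl⟩
  rw [← hL] at hl ha ⊢
  have hL0 : 0 < L := by rw [hL]; exact Real.log_pos (by linarith)
  obtain ⟨l, hl0⟩ : ∃ l, l = Real.log L := ⟨_, rfl⟩
  rw [← hl0] at hl ha
  have hexpl : Real.exp l = L := by rw [hl0, Real.exp_log hL0]
  obtain ⟨S, hS1, hS2, hS3⟩ := hd a X l hX2 (by linarith) (by rw [hexpl, hL])
  have hcard : (S.card : ℝ) ≤ (aPrimes a X).card := by exact_mod_cast card_le_card (sub_aPrimes hS1 hS2)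
  have ha0 : (0 : ℝ) ≤ a := Nat.cast_nonneg a
  have h1 : ((a : ℝ) + 1) * (l + κ) ≤ η₁ / 2 * L := by
    have : ((a : ℝ) + 1) * (l + κ) ≤ ((a : ℝ) + 1) * (2 * l) :=
      mul_le_mul_of_nonneg_left (by linarith) (by linarith)
    nlinarith
  have h2 : (X : ℝ) ^ (1 - η₁ / 2) ≤ X * Real.exp (-(((a : ℝ) + 1) * (l + κ))) := by
    rw [Real.rpow_sub hX0, Real.rpow_one, Real.exp_neg, div_eq_mul_inv]
    apply mul_le_mul_of_nonneg_left _ hX0.le
    apply inv_anti₀ (Real.exp_pos _)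
    rw [Real.rpow_def_of_pos hX0, ← hL]
    exact Real.exp_le_exp.2 (by linarith)
  have h3 : 2 ≤ (X : ℝ) ^ (1 - η₁ / 2) := by
    refine hp2.trans ?_
    exact Real.rpow_le_rpow_of_exponent_le (by linarith) (by linarith)
  have h4 : (X : ℝ) * Real.exp (-(((a : ℝ) + 1) * (l + κ))) ≤ 2 * (aPrimes a X).card := by
    linarith
  constructor
  · have h5 : (Real.exp κ * L) ^ (a + 1) = Real.exp (((a : ℝ) + 1) * (l + κ)) := by
      rw [← hexpl, ← Real.exp_add, ← Real.exp_nat_mul]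
      congr 1
      push_cast
      ring
    rw [h5]
    rw [Real.exp_neg, ← div_eq_mul_inv, div_le_iff₀ (Real.exp_pos _)] at h4
    linarith
  · have h6 : (X : ℝ) ^ (1 - η₀) ≤ (X : ℝ) ^ (1 - η₁) :=
      Real.rpow_le_rpow_of_exponent_le (by linarith) (by linarith)
    have h7 : 2 * (X : ℝ) ^ (1 - η₁) ≤ (X : ℝ) ^ (1 - η₁ / 2) := by
      have e : (X : ℝ) ^ (1 - η₁ / 2) = (X : ℝ) ^ (η₁ / 2) * (X : ℝ) ^ (1 - η₁) := by
        rw [← Real.rpow_add hX0]
        congr 1
        ring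
      rw [e]
      exact mul_le_mul_of_nonneg_right hp2 (Real.rpow_nonneg hX0.le _)
    linarith

/-- **Sums of an `a`-prime and an almost prime, for all types `(a, 0)` at once.** For every `ε > 0` there are positive
`c`, `C`, `K`, `η` such that for all large `X`: (1) for all `a` with `(a + 1) log log X ≤ η log X` there are at least
`X / (K log X) ^ (a + 1)` `a`-primes up to `X`, and at most `C (K log X) ^ a` of the `N` in `(X, 2 X]` are exceptional; (2)
for all the `N` in `(X, 2 X]` but at most `exp (5 √(log X) log log X)`, for ALL `a` with `f₂ (a, 0) ≤ N` at least the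
proportion `c` of the `a`-primes `p ≤ X` satisfies `N = p + m s` with `m` composed of primes `< X ^ ε` and `s` with at most
two prime factors, all `> X ^ (1 / 7)`. -/
theorem result (ε : ℝ) (hε : 0 < ε) : ∃ c C K η : ℝ, 0 < c ∧ 0 < C ∧ 0 < K ∧ 0 < η ∧ ∀ᶠ X : ℕ in atTop,
    (∀ a : ℕ, ((a : ℝ) + 1) * Real.log (Real.log X) ≤ η * Real.log X →
      (X : ℝ) / (K * Real.log X) ^ (a + 1) ≤ (aPrimes a X).card ∧
      ((exceptional ε c a X).card : ℝ) ≤ C * (K * Real.log X) ^ a) ∧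
    (Set.ncard {N : ℕ | X < N ∧ N ≤ 2 * X ∧
      ¬ ∀ a : ℕ, f₂ a 0 ≤ N → c * (aPrimes a X).card ≤ (reps ε a X N : ℝ)} : ℝ) ≤
      Real.exp (5 * (√(Real.log X) * Real.log (Real.log X))) := by
  classical
  obtain ⟨c, C₀, η₀, hc, hη₀, hsp⟩ := Pool.Agent.W23.SG.sparse_sets ε hε
  obtain ⟨κ, hκ, hd⟩ := Pool.Agent.Y886.UT.dens_exp
  have hE : 1 ≤ Real.exp κ := Real.one_le_exp hκ
  obtain ⟨C₁, hC₁⟩ : ∃ C₁, C₁ = max C₀ 1 := ⟨_, rfl⟩
  have hC₁1 : 1 ≤ C₁ := by rw [hC₁]; exact le_max_right _ _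
  have hC₁0 : C₀ ≤ C₁ := by rw [hC₁]; exact le_max_left _ _
  obtain ⟨C, hC⟩ : ∃ C, C = 2 * C₁ * Real.exp κ := ⟨_, rfl⟩
  have hC1 : 1 ≤ C := by rw [hC]; nlinarith
  obtain ⟨K, hK⟩ : ∃ K, K = 2 * Real.exp κ := ⟨_, rfl⟩
  have hK2 : 2 ≤ K := by rw [hK]; linarith
  obtain ⟨η, hη⟩ : ∃ η, η = min η₀ 1 / 4 := ⟨_, rfl⟩
  have hη0 : 0 < η := by
    rw [hη]
    have : 0 < min η₀ 1 := lt_min hη₀ one_pos
    positivity
  have hlow := lower κ η₀ hκ hη₀ hd
  rw [← hη] at hlow
  refine ⟨c, C, K, η, hc, by linarith, by linarith, hη0, ?_⟩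
  have tN : Tendsto (fun N : ℕ => (N : ℝ)) atTop atTop := tendsto_natCast_atTop_atTop
  have tL : Tendsto (fun N : ℕ => Real.log (N : ℝ)) atTop atTop := Real.tendsto_log_atTop.comp tN
  have tS : Tendsto (fun N : ℕ => √(Real.log (N : ℝ))) atTop atTop := Real.tendsto_sqrt_atTop.comp tL
  have hev : ∀ᶠ t : ℝ in atTop, 4 ≤ t ∧ 6 * C ≤ t ∧ Real.log K ≤ 2 * Real.log t ∧
      (2 * t + 1) * (2 * Real.log t) ≤ η * t ^ 2 := by
    have h1 := Real.isLittleO_log_id_atTop.bound (show (0 : ℝ) < η / 6 by positivity)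
    filter_upwards [eventually_ge_atTop 4, eventually_ge_atTop (6 * C),
      Real.tendsto_log_atTop.eventually_ge_atTop (Real.log K), h1] with t h1 h2 h3 h4
    have hl : 0 ≤ Real.log t := Real.log_nonneg (by linarith)
    rw [Real.norm_of_nonneg hl] at h4
    simp only [id] at h4
    rw [Real.norm_of_nonneg (by linarith)] at h4
    refine ⟨h1, h2, by linarith, ?_⟩
    calc (2 * t + 1) * (2 * Real.log t) ≤ (3 * t) * (2 * (η / 6 * t)) := by gcongr; linarith
      _ = η * t ^ 2 := by ring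
  filter_upwards [hlow, tS.eventually hev, eventually_ge_atTop 3] with X hX ht hX3
  obtain ⟨e1, e2, e3, e4⟩ := ht
  have hXr : (3 : ℝ) ≤ X := by exact_mod_cast hX3
  have hX0 : (0 : ℝ) < X := by linarith
  obtain ⟨L, hL⟩ : ∃ L, L = Real.log (X : ℝ) := ⟨_, rfl⟩
  rw [← hL] at hX e1 e2 e3 e4 ⊢
  have hL0 : 0 < L := by rw [hL]; exact Real.log_pos (by linarith)
  obtain ⟨t, ht⟩ : ∃ t, t = √L := ⟨_, rfl⟩
  rw [← ht] at e1 e2 e3 e4 ⊢
  have ht2 : t * t = L := by rw [ht]; exact Real.mul_self_sqrt hL0.le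
  have ht0 : 0 < t := by linarith
  have hLt : Real.log L = 2 * Real.log t := by
    rw [← ht2, Real.log_mul ht0.ne' ht0.ne']
    ring
  have hlt1 : 1 ≤ Real.log t := by
    rw [Real.le_log_iff_exp_le ht0]
    have := Real.exp_one_lt_d9
    linarith
  have hL16 : 16 ≤ L := by nlinarith
  have hKL : 1 ≤ K * L := by nlinarith
  -- a single `a`
  have hone : ∀ a : ℕ, ((a : ℝ) + 1) * Real.log L ≤ η * L →
      (X : ℝ) / (K * L) ^ (a + 1) ≤ (aPrimes a X).card ∧
      ((exceptional ε c a X).card : ℝ) ≤ C * (K * L) ^ a := by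
    intro a ha
    obtain ⟨h1, h2⟩ := hX a ha
    obtain ⟨n, hn⟩ : ∃ n : ℝ, n = (aPrimes a X).card := ⟨_, rfl⟩
    rw [← hn] at h1 h2 ⊢
    have hn0 : 0 < n := (Real.rpow_pos_of_pos hX0 _).trans_le h2
    have hpow : 2 * (Real.exp κ * L) ^ (a + 1) ≤ (K * L) ^ (a + 1) := by
      have e5 : K * L = 2 * (Real.exp κ * L) := by rw [hK]; ring
      rw [e5, mul_pow 2]
      apply mul_le_mul_of_nonneg_right _ (by positivity)
      calc (2 : ℝ) = 2 ^ 1 := (pow_one _).symm
        _ ≤ 2 ^ (a + 1) := pow_le_pow_right₀ (by norm_num) (by omega)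
    constructor
    · rw [div_le_iff₀ (by positivity)]
      calc (X : ℝ) ≤ 2 * (Real.exp κ * L) ^ (a + 1) * n := h1
        _ ≤ (K * L) ^ (a + 1) * n := mul_le_mul_of_nonneg_right hpow hn0.le
        _ = n * (K * L) ^ (a + 1) := mul_comm _ _
    · have h3 := hsp X (by omega) (aPrimes a X) (fun p hp => prime_of_mem hp) (by rw [← hn]; exact h2)
      have h4 : ((exceptional ε c a X).card : ℝ) ≤ C₀ * (X / (n * L)) := by
        rw [← hn, ← hL] at h3
        refine le_trans (Nat.cast_le.2 ?_) h3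
        apply card_le_card_of_injOn (fun N : ℕ => (N : ℤ))
        · intro N hN
          have hN' := mem_coe.1 hN
          unfold exceptional at hN'
          rw [mem_filter, mem_Ioc] at hN'
          obtain ⟨⟨h5, h6⟩, h7⟩ := hN'
          rw [mem_coe, mem_filter, mem_Icc]
          refine ⟨⟨by show -(2 * (X : ℤ)) ≤ (N : ℤ); omega, by show (N : ℤ) ≤ 2 * (X : ℤ); omega⟩, ?_⟩
          rw [← hn] at h7
          refine lt_of_le_of_lt (Nat.cast_le.2 ?_) h7
          unfold reps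
          apply card_le_card
          intro p hp
          rw [mem_filter] at hp ⊢
          obtain ⟨hp1, hp2, m, s, hms, hm, hs, hq⟩ := hp
          refine ⟨hp1, ?_⟩
          have hpX := (prime_of_mem hp1).2
          have hNp : ((N : ℤ) - p).natAbs = N - p := by omega
          rw [hNp] at hms
          have hpos : 0 < m * s := by omega
          exact ⟨m, s, Nat.pos_of_mul_pos_right hpos, Nat.pos_of_mul_pos_left hpos, by omega, hm, hs, hq⟩
        · intro N _ N' _ h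
          have h' : (N : ℤ) = (N' : ℤ) := h
          exact_mod_cast h'
      refine h4.trans ?_
      have h5 : (X : ℝ) / (n * L) ≤ 2 * Real.exp κ * (K * L) ^ a := by
        rw [div_le_iff₀ (by positivity)]
        have h6 : (Real.exp κ * L) ^ a ≤ (K * L) ^ a := by
          apply pow_le_pow_left₀ (by positivity)
          apply mul_le_mul_of_nonneg_right _ hL0.le
          rw [hK]
          linarith
        calc (X : ℝ) ≤ 2 * (Real.exp κ * L) ^ (a + 1) * n := h1
          _ = 2 * Real.exp κ * (Real.exp κ * L) ^ a * (n * L) := by ring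
          _ ≤ 2 * Real.exp κ * (K * L) ^ a * (n * L) := by gcongr
      calc C₀ * (X / (n * L)) ≤ C₁ * (X / (n * L)) := mul_le_mul_of_nonneg_right hC₁0 (by positivity)
        _ ≤ C₁ * (2 * Real.exp κ * (K * L) ^ a) := mul_le_mul_of_nonneg_left h5 (by linarith)
        _ = C * (K * L) ^ a := by rw [hC]; ring
  refine ⟨hone, ?_⟩
  -- all `a`
  obtain ⟨A, hA⟩ : ∃ A : ℕ, A = Nat.sqrt (Nat.log 2 (2 * X)) := ⟨_, rfl⟩
  have hAt : (A : ℝ) ≤ 2 * t := by
    have h6 : A * A ≤ Nat.log 2 (2 * X) := by rw [hA]; exact Nat.sqrt_le _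
    have h7 : ((A : ℝ)) * A ≤ Nat.log 2 (2 * X) := by exact_mod_cast h6
    have h8 := Pool.Agent.Y886.UT.nlog_le (show 1 ≤ 2 * X by omega)
    have h9 : Real.log ((2 * X : ℕ) : ℝ) = Real.log 2 + L := by
      push_cast
      rw [Real.log_mul (by norm_num) hX0.ne', hL]
    rw [h9] at h8
    have hlog2 : (0.69 : ℝ) ≤ Real.log 2 := by
      have := Real.log_two_gt_d9
      linarith
    have h10 : (Nat.log 2 (2 * X) : ℝ) ≤ 4 * L := by
      by_contra hcon
      push Not at hcon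
      have h11 : 4 * L * Real.log 2 < Nat.log 2 (2 * X) * Real.log 2 :=
        mul_lt_mul_of_pos_right hcon (by linarith)
      nlinarith
    exact Pool.Agent.Y886.UT.abs_le_of_mul_self (Nat.cast_nonneg _) (by linarith) (by nlinarith)
  have hrange : ∀ a : ℕ, a ≤ A → ((a : ℝ) + 1) * Real.log L ≤ η * L := by
    intro a ha
    have h1 : (a : ℝ) ≤ A := by exact_mod_cast ha
    rw [hLt]
    calc ((a : ℝ) + 1) * (2 * Real.log t) ≤ (2 * t + 1) * (2 * Real.log t) := by gcongr; linarith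
      _ ≤ η * t ^ 2 := e4
      _ = η * L := by rw [← ht2]; ring
  obtain ⟨B, hB⟩ : ∃ B : Finset ℕ, B = (range (A + 1)).biUnion (fun a => exceptional ε c a X) := ⟨_, rfl⟩
  have hsub : {N : ℕ | X < N ∧ N ≤ 2 * X ∧
      ¬ ∀ a : ℕ, f₂ a 0 ≤ N → c * (aPrimes a X).card ≤ (reps ε a X N : ℝ)} ⊆ (B : Set ℕ) := by
    rintro N ⟨h1, h2, h3⟩
    push Not at h3
    obtain ⟨a, h4, h5⟩ := h3
    rw [hB, mem_coe, mem_biUnion]
    refine ⟨a, ?_, ?_⟩
    · rw [mem_range]
      have h6 : a ^ 2 ≤ Nat.log 2 (2 * X) :=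
        Pool.Agent.Y886.UT.log_of_f2 (a := a) (b := 0) (n := N) h2 h4 (Pool.Agent.Y886.UT.f2_ge a 0).1
      have h7 : a ≤ A := by
        rw [hA, Nat.le_sqrt']
        exact h6
      omega
    · unfold exceptional
      rw [mem_filter, mem_Ioc]
      exact ⟨⟨h1, h2⟩, h5⟩
  have hcardB : (B.card : ℝ) ≤ (A + 1) * (C * (K * L) ^ A) := by
    have h1 : (B.card : ℝ) ≤ ∑ a ∈ range (A + 1), ((exceptional ε c a X).card : ℝ) := by
      rw [hB]
      exact_mod_cast card_biUnion_le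
    refine h1.trans ?_
    have h2 : ∀ a ∈ range (A + 1), ((exceptional ε c a X).card : ℝ) ≤ C * (K * L) ^ A := by
      intro a ha
      rw [mem_range] at ha
      refine (hone a (hrange a (by omega))).2.trans ?_
      apply mul_le_mul_of_nonneg_left _ (by linarith)
      exact pow_le_pow_right₀ hKL (by omega)
    have h3 := sum_le_card_nsmul _ _ _ h2
    rw [card_range, nsmul_eq_mul] at h3
    push_cast at h3
    exact h3
  have h1 : (Set.ncard {N : ℕ | X < N ∧ N ≤ 2 * X ∧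
      ¬ ∀ a : ℕ, f₂ a 0 ≤ N → c * (aPrimes a X).card ≤ (reps ε a X N : ℝ)} : ℝ) ≤ B.card := by
    have := Set.ncard_le_ncard hsub (finite_toSet B)
    rw [Set.ncard_coe_finset] at this
    exact_mod_cast this
  refine h1.trans (hcardB.trans ?_)
  have hKL0 : 0 < K * L := by linarith
  have h2 : (K * L) ^ A ≤ Real.exp (4 * (t * Real.log L)) := by
    have h3 : (K * L) ^ A = Real.exp (A * Real.log (K * L)) := by
      rw [Real.exp_nat_mul, Real.exp_log hKL0]
    rw [h3]
    apply Real.exp_le_exp.2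
    have hK0 : (0 : ℝ) < K := by linarith
    rw [Real.log_mul hK0.ne' hL0.ne']
    have h4 : Real.log K + Real.log L ≤ 2 * Real.log L := by rw [hLt]; linarith
    have h5 : 0 ≤ Real.log L := by rw [hLt]; linarith
    calc (A : ℝ) * (Real.log K + Real.log L) ≤ (A : ℝ) * (2 * Real.log L) :=
          mul_le_mul_of_nonneg_left h4 (Nat.cast_nonneg _)
      _ ≤ (2 * t) * (2 * Real.log L) := mul_le_mul_of_nonneg_right hAt (by linarith)
      _ = 4 * (t * Real.log L) := by ring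
  have h3 : ((A : ℝ) + 1) * C ≤ Real.exp (t * Real.log L) := by
    have h4 : t ≤ t * Real.log L := by
      rw [hLt]
      nlinarith
    refine le_trans ?_ (Real.exp_le_exp.2 h4)
    have h5 := Real.quadratic_le_exp_of_nonneg ht0.le
    have h6 : ((A : ℝ) + 1) * C ≤ (2 * t + 1) * C := mul_le_mul_of_nonneg_right (by linarith) (by linarith)
    nlinarith
  calc ((A : ℝ) + 1) * (C * (K * L) ^ A) = (((A : ℝ) + 1) * C) * (K * L) ^ A := by ring
    _ ≤ Real.exp (t * Real.log L) * Real.exp (4 * (t * Real.log L)) := by gcongr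
    _ = Real.exp (5 * (t * Real.log L)) := by
        rw [← Real.exp_add]
        congr 1
        ring

end Pool.Agent.Q331.E3
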